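import Mathlib
import Pool.Agent.N754.LT.Fin

/-!
MP_e97a4d_nt, Q1: the Bombieri–Lang–Vojta equivalence for affine schemes with a map to a torus
whose fibres are points or are covered by curves with Laurent coordinates.
-/

set_option autoImplicit false

namespace Pool.Agent.Results.MP_e97a4d_nt.FibresOverTori

open MvPolynomial NumberField Pool.Agent.H159R3.Exp Pool.Agent.W235.RM

/-- The complex points of the affine scheme over `𝓞 K` given by the polynomials `F i`. -/
def Pts {K : Type} [Field K] {ι : Type} {n : ℕ} (σ : K →+* ℂ)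
    (F : ι → MvPolynomial (Fin n) (𝓞 K)) : Set (Fin n → ℂ) :=
  {z | ∀ i, eval₂ (σ.comp (algebraMap (𝓞 K) K)) z (F i) = 0}

/-- Every point of `V` outside `V'` which has the same coordinates with index in `U` as another
point of `V` lies on a nonconstant curve in `V` with Laurent coordinates. -/
def FibresCovered {K : Type} [Field K] {ι κ : Type} {n : ℕ} (σ : K →+* ℂ)
    (F : ι → MvPolynomial (Fin n) (𝓞 K)) (G : κ → MvPolynomial (Fin n) (𝓞 K))
    (U : Finset (Fin n)) : Prop :=
  ∀ z ∈ Pts σ F, z ∉ Pts σ G → ∀ z' ∈ Pts σ F, (∀ i ∈ U, z' i = z i) → z' ≠ z →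
    ∃ v : ℂ → Fin n → ℂ, (∀ j, Laur fun t => v t j) ∧ (∀ t, t ≠ 0 → v t ∈ Pts σ F) ∧ v 1 = z ∧
      ∃ t, t ≠ 0 ∧ v t ≠ z

/-- The polynomials have degree at most one in the variables with index outside `U`. -/
def LinearOff {R : Type} [CommSemiring R] {ι : Type} {n : ℕ} (F : ι → MvPolynomial (Fin n) R)
    (U : Finset (Fin n)) : Prop :=
  ∀ i, ∀ s ∈ (F i).support, ∑ j ∈ Uᶜ, s j ≤ 1

/-- Let `V = {F = 0}` be an affine scheme of finite type over the ring of integers of a number field
`K`, and `V'` its closed subscheme given by `G`. Let `U` be a set of coordinates which have no zeros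
on `V(ℂ)`, and suppose that `F` has degree at most one in the other coordinates, or, more generally,
that every point of `V(ℂ)` outside `V'` which is not alone in its fibre over the torus with
coordinates in `U` lies on a nonconstant curve in `V` with Laurent coordinates. Then the following are
equivalent: every entire curve in `V` lies in `V'`; the sets `V(O_S) ∖ V'(O_S)` are finite, for all
finite extensions of `K` and all `S`; every nonconstant curve in `V` with Laurent coordinates lies in
`V'`. -/
theorem result {K : Type} [Field K] [NumberField K] {ι κ : Type} [Finite ι] {n : ℕ}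
    (σ : K →+* ℂ) (F : ι → MvPolynomial (Fin n) (𝓞 K)) (G : κ → MvPolynomial (Fin n) (𝓞 K))
    (U : Finset (Fin n)) (hU : ∀ z ∈ Pts σ F, ∀ i ∈ U, z i ≠ 0)
    (hfib : LinearOff F U ∨ FibresCovered σ F G U) :
    List.TFAE [EntireCurvesIn σ F G, FinitelyManyIntegral F G, GmCurvesIn σ F G] := by
  classical
  have hcov : FibresCovered σ F G U := by
    rcases hfib with hlin | h
    · intro z hz _ z' hz' hzU hne
      refine ⟨fun t j => z j + (t - 1) * (z' j - z j), fun j => ?_, fun t _ i => ?_, ?_, 2,
        two_ne_zero, ?_⟩
      · have h5 : (fun s : ℂ => z j + (s - 1) * (z' j - z j)) =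
            fun s => z j + (s + (-1)) * (z' j - z j) := by
          funext s
          rw [sub_eq_add_neg s 1]
        rw [h5]
        exact (Laur.const _).add ((Laur.id.add (Laur.const _)).mul (Laur.const _))
      · let P : MvPolynomial (Fin n) ℂ := MvPolynomial.map (σ.comp (algebraMap (𝓞 K) K)) (F i)
        have hP : Pool.Agent.N754.LT.LinOff U P :=
          Pool.Agent.N754.LT.LinOff.map (hlin i) _
        have hev : ∀ x : Fin n → ℂ, eval₂ (σ.comp (algebraMap (𝓞 K) K)) x (F i) = eval x P :=
          fun x => (eval_map _ _ _).symm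
        have e1 := Pool.Agent.N754.LT.affine_expand U P hP
          (fun j => z j + (t - 1) * (z' j - z j))
        have e2 := Pool.Agent.N754.LT.affine_expand U P hP z
        have e3 := Pool.Agent.N754.LT.affine_expand U P hP z'
        simp only [Pool.Agent.N754.LT.ae_eval] at e1 e2 e3
        have z1 : Pool.Agent.N754.LT.z0 U (fun j => z j + (t - 1) * (z' j - z j)) =
            Pool.Agent.N754.LT.z0 U z := by
          funext j
          unfold Pool.Agent.N754.LT.z0
          by_cases hj : j ∈ U
          · rw [if_pos hj, if_pos hj]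
            show z j + (t - 1) * (z' j - z j) = z j
            rw [hzU j hj, sub_self, mul_zero, add_zero]
          · rw [if_neg hj, if_neg hj]
        have z2 : Pool.Agent.N754.LT.z0 U z' = Pool.Agent.N754.LT.z0 U z := by
          funext j
          unfold Pool.Agent.N754.LT.z0
          by_cases hj : j ∈ U
          · rw [if_pos hj, if_pos hj, hzU j hj]
          · rw [if_neg hj, if_neg hj]
        have hz0 := hz i
        have hz0' := hz' i
        rw [hev, e2] at hz0
        rw [hev, e3, z2] at hz0'
        show eval₂ (σ.comp (algebraMap (𝓞 K) K)) (fun j => z j + (t - 1) * (z' j - z j)) (F i) = 0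
        rw [hev, e1, z1]
        have h9 : ∑ j ∈ Uᶜ, (z j + (t - 1) * (z' j - z j)) *
            eval (Pool.Agent.N754.LT.z0 U z) (pderiv j P) =
            (2 - t) * ∑ j ∈ Uᶜ, z j * eval (Pool.Agent.N754.LT.z0 U z) (pderiv j P) +
              (t - 1) * ∑ j ∈ Uᶜ, z' j * eval (Pool.Agent.N754.LT.z0 U z) (pderiv j P) := by
          rw [Finset.mul_sum, Finset.mul_sum, ← Finset.sum_add_distrib]
          refine Finset.sum_congr rfl fun j _ => ?_
          ring
        rw [h9]
        linear_combination (2 - t) * hz0 + (t - 1) * hz0'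
      · funext j
        simp
      · intro h2
        apply hne
        funext j
        have h3 : z j + (2 - 1) * (z' j - z j) = z j := congrFun h2 j
        linear_combination h3
    · exact h
  tfae_have 1 → 3 := fun h => by
    have h1 := exp_of_entire σ F G h
    exact ((tfae σ F G).out 0 1).1 h1
  tfae_have 2 → 3 := fun h => by
    have h1 := rec_of_integral F G h
    exact ((tfae σ F G).out 5 1).1 h1
  have hal : GmCurvesIn σ F G → Pool.Agent.N754.LT.Alone σ F G U := by
    intro h z z' hz hz' hzU hG
    by_contra hne
    obtain ⟨v, hv1, hv2, hv3, t, ht, hv4⟩ := hcov z hz (fun h => by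
      obtain ⟨l, hl⟩ := hG
      exact hl (h l)) z' hz' hzU hne
    obtain ⟨l, hl⟩ := hG
    apply hl
    rw [← hv3]
    exact h v hv1 (fun i t ht => hv2 t ht i) ⟨t, 1, ht, one_ne_zero, by rw [hv3]; exact hv4⟩ l 1
      one_ne_zero
  tfae_have 3 → 1 := fun h =>
    Pool.Agent.N754.LT.entire_of_alone σ F G U hU (hal h) h
  tfae_have 3 → 2 := fun h =>
    Pool.Agent.N754.LT.integral_of_alone σ F G U hU (hal h) fun h2 =>
      not_gm_of_hasLaurent σ F G h2 h
  tfae_finish

end Pool.Agent.Results.MP_e97a4d_nt.FibresOverTori
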