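import Pool.Agent.N111.QC.Blw

/-!
MP_e97a4d_nt, Q1: the Bombieri–Lang–Vojta conjecture for all affine schemes over the ring of
integers of a number field, and all their closed subschemes, is equivalent to the conjecture for
the complements of `2 N` quadrics in the affine spaces `𝔸 ^ N`; and each closed subscheme `V` of an
affine variety `W` has a principal open neighbourhood `X` in `W` such that all entire curves in `X`
are contained in `V` and all sets `X(O_S) ∖ V(O_S)` are finite.

Let `F₀` be a number field with an embedding in `ℂ`, and `O` its ring of integers. An affine scheme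
of finite type over `O` is `V = Spec C` for a finitely generated algebra `C`, and a closed subscheme
`V'` is given by an ideal `J` of `C`. The complex points of `V` are the homomorphisms of algebras
`C →ₐ[O] ℂ`, and an entire curve in `V` is a family `F z`, `z ∈ ℂ`, of points such that all functions
`F z c`, `c ∈ C`, are holomorphic. `EntireIn O J`: every nonconstant entire curve in `V` has its image
in `V'` (condition (i)). `FinIntegral F₀ J`: the set `V(O_S) ∖ V'(O_S)` is finite for all finite
extensions `L` of `F₀` and all finite sets `S` of primes of `L` (condition (ii)); the points of `V` over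
`O_S` are the homomorphisms of algebras `C →ₐ[𝓞 F₀] S.integer L`. `BLV F₀ C`: (i) and (ii) are
equivalent for all closed subschemes of `V`. `Nbh g`: the coordinate ring of the open subscheme where
all `g l` are invertible. `Absorbs F₀ ρ`: the map `ρ` is surjective, and for the corresponding closed
embedding of `V` in `X` conditions (i) and (ii) hold for `(X, V)`, and each of them holds for
`(X, V')` if and only if it holds for `(V, V')`, for all closed subschemes `V'` of `V`
(`Pool/Agent/N111/QC/Blv.lean` and `Blw.lean`).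

Proof. (1) The generators `f` of the ideal of `V` in `W = Spec A` and their products with the
coordinates give a map which is injective off `V`. By a linear Noether normalisation (with integral
coefficients) there are `w = dim W` linear combinations `T` of these functions which have finite
fibres off `V`. Take `g_l = 1 + l T_1 + l ^ 2 T_2 + … + l ^ w T_w` for `l = 1, …, 2 w`. On the
neighbourhood `X = {g ≠ 0}` of `V` these functions are units, and by the theorem on unit equations
(resp. by Borel's theorem) and the argument of Green for `2 w + 1` hyperplanes in general position,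
there are only finitely many values of `T` on `X(O_S)` (resp. `T` is constant on entire curves).
(2) For the image `V` of an affine scheme under the Veronese embedding `y_α = x ^ α`, `|α| ≤ d`, the
quadrics `y_α y_β - y_γ y_δ`, the linear forms of `V` and their products with the coordinates have
finite fibres off `V`, if `d ≥ 4`.
-/

set_option autoImplicit false
set_option linter.overlappingInstances false

namespace Pool.Agent.Results.MP_e97a4d_nt.QuadricComplements

open MvPolynomial NumberField
open Pool.Agent.N111.QC (Absorbs BLV Nbh)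

/-- Let `F₀` be a number field with an embedding in `ℂ`, and `O = 𝓞 F₀`.

**(1)** Let `W = Spec A` be an integral affine scheme of finite type over `O`, dominating `Spec O`, of
relative dimension `w`, and let `V = Spec (A ⧸ I)` be any closed subscheme of `W`. There are `2 w`
functions `g l` on `W` which are equal to `1` on `V`, such that the principal open neighbourhood
`X = {g ≠ 0}` of `V`, with the closed embedding `ρ` of `V` in `X`, satisfies conditions (i) and (ii)
with respect to its closed subscheme `V`. Hence for each closed subscheme `V'` of `V`, given by `J`,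
condition (i) for `(X, V')` is equivalent to condition (i) for `(V, V')`, and condition (ii) for
`(X, V')` is equivalent to condition (ii) for `(V, V')`.

**(2)** Let `V = Spec C` be any affine scheme of finite type over `O`. There is a closed embedding of
`V` in the complement `X` of `2 N` quadrics in an affine space `𝔸 ^ N` over `O` for which the same is
true.

**(3)** The conjecture of Bombieri, Lang and Vojta (the equivalence of (i) and (ii)) for all affine
schemes `V` of finite type over `O` and all closed subschemes `V'` is equivalent to the conjecture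
for the complements of `2 N` quadrics in `𝔸 ^ N`, for all `N`, and all closed subschemes. -/
theorem result (F₀ : Type) [Field F₀] [NumberField F₀] [Algebra F₀ ℂ] :
    (∀ (A : Type) [CommRing A] [IsDomain A] [Algebra (𝓞 F₀) A] [FaithfulSMul (𝓞 F₀) A]
      [Algebra.FiniteType (𝓞 F₀) A] (w : ℕ) (I : Ideal A), Algebra.trdeg (𝓞 F₀) A = w →
      ∃ (g : Fin (2 * w) → A) (ρ : Nbh g →ₐ[𝓞 F₀] A ⧸ I), (∀ l, g l - 1 ∈ I) ∧
        (∀ a, ρ (algebraMap A _ a) = Ideal.Quotient.mk I a) ∧ Absorbs F₀ ρ) ∧
    (∀ (C : Type) [CommRing C] [Algebra (𝓞 F₀) C] [Algebra.FiniteType (𝓞 F₀) C],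
      ∃ (N : ℕ) (Q : Fin (2 * N) → MvPolynomial (Fin N) (𝓞 F₀)) (ρ : Nbh Q →ₐ[𝓞 F₀] C),
        (∀ l, (Q l).totalDegree ≤ 2) ∧ Absorbs F₀ ρ) ∧
    ((∀ (C : Type) [CommRing C] [Algebra (𝓞 F₀) C] [Algebra.FiniteType (𝓞 F₀) C], BLV F₀ C) ↔
      ∀ (N : ℕ) (Q : Fin (2 * N) → MvPolynomial (Fin N) (𝓞 F₀)), (∀ l, (Q l).totalDegree ≤ 2) →
        BLV F₀ (Nbh Q)) := by
  have hB : Function.Injective (algebraMap (𝓞 F₀) ℂ) := by
    rw [IsScalarTower.algebraMap_eq (𝓞 F₀) F₀ ℂ]
    exact (algebraMap F₀ ℂ).injective.comp (FaithfulSMul.algebraMap_injective (𝓞 F₀) F₀)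
  have h2 : ∀ (C : Type) [CommRing C] [Algebra (𝓞 F₀) C] [Algebra.FiniteType (𝓞 F₀) C],
      ∃ (N : ℕ) (Q : Fin (2 * N) → MvPolynomial (Fin N) (𝓞 F₀)) (ρ : Nbh Q →ₐ[𝓞 F₀] C),
        (∀ l, (Q l).totalDegree ≤ 2) ∧ Absorbs F₀ ρ := by
    intro C _ _ _
    obtain ⟨N, T, π, hπ, hT, hS⟩ := Pool.Agent.N111.QC.exists_quad (B := 𝓞 F₀) (C := C)
    have hTI : ∀ i, π (T i) = 0 := fun i => (hT i).2
    have hs := Pool.Agent.N111.QC.rho_surj π hTI hπ
    have he := Pool.Agent.N111.QC.entire_rho π hTI hπ hS hB
    have hf := Pool.Agent.N111.QC.fin_rho π hTI hπ hS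
    exact ⟨N, Pool.Agent.N111.QC.gf T, Pool.Agent.N111.QC.rho π hTI,
      Pool.Agent.N111.QC.gf_deg fun i => (hT i).1, hs, he, hf,
      fun J => ⟨Pool.Agent.N111.QC.entire_pull _ hs he J,
        Pool.Agent.N111.QC.fin_pull _ hs hf J⟩⟩
  refine ⟨fun A _ _ _ _ _ w I hw => ?_, h2, fun h N Q _ => h _, fun h C _ _ _ J => ?_⟩
  · have : IsNoetherianRing A := Algebra.FiniteType.isNoetherianRing (𝓞 F₀) A
    obtain ⟨T, hTI, hS⟩ := Pool.Agent.N111.QC.exists_nbh (B := 𝓞 F₀) (w := w) hw.le I
      (IsNoetherian.noetherian I)
    have hT0 : ∀ i, Ideal.Quotient.mkₐ (𝓞 F₀) I (T i) = 0 := fun i =>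
      Ideal.Quotient.eq_zero_iff_mem.2 (hTI i)
    have hker : RingHom.ker (Ideal.Quotient.mkₐ (𝓞 F₀) I) = I := by
      ext a
      rw [RingHom.mem_ker]
      exact Ideal.Quotient.eq_zero_iff_mem
    have hπ := Ideal.Quotient.mkₐ_surjective (𝓞 F₀) I
    have hS' : Pool.Agent.N111.QC.Sep (𝓞 F₀)
        (RingHom.ker (Ideal.Quotient.mkₐ (𝓞 F₀) I)) T := by rw [hker]; exact hS
    have hs := Pool.Agent.N111.QC.rho_surj _ hT0 hπ
    have he := Pool.Agent.N111.QC.entire_rho _ hT0 hπ hS' hB
    have hf := Pool.Agent.N111.QC.fin_rho _ hT0 hπ hS'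
    refine ⟨Pool.Agent.N111.QC.gf T, Pool.Agent.N111.QC.rho _ hT0, fun l => ?_,
      Pool.Agent.N111.QC.rho_alg _ hT0, hs, he, hf,
      fun J => ⟨Pool.Agent.N111.QC.entire_pull _ hs he J,
        Pool.Agent.N111.QC.fin_pull _ hs hf J⟩⟩
    have h1 := Pool.Agent.N111.QC.pi_gf (Ideal.Quotient.mkₐ (𝓞 F₀) I) hT0 ((l : ℕ) + 1)
    rw [← Ideal.Quotient.eq_zero_iff_mem, map_sub, map_one, sub_eq_zero]
    exact h1
  · obtain ⟨N, Q, ρ, hQ, -, -, -, hJ⟩ := h2 C
    rw [← (hJ J).1, ← (hJ J).2]
    exact h N Q hQ _

end Pool.Agent.Results.MP_e97a4d_nt.QuadricComplements
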