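import Mathlib
import Pool.Agent.N302.SP.Neg2

/-!
# Integral points and entire curves of the symmetric powers of `M_{0,n}`

Let `V' = ∅`. The conditions of the problem for a scheme `V` of finite type are then

* (i) every holomorphic map `ℂ → V(ℂ)` is constant;
* (ii) `V(O_{L,S})` is finite for all number fields `L` and all finite sets `S` of places of `L`.

We treat the symmetric powers `V = Sym^r (M_{0,n})` of the moduli spaces of `n` distinct points of
the projective line. These are varieties of dimension `r (n - 3)`, singular along the diagonals if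
`n ≥ 5`; their points over a field `L` are the `Gal(L^a/L)`-stable multisets of `r` points of
`M_{0,n}`, for example the points of `M_{0,n}` of degree `r`, and the maps `ℂ → Sym^r (M_{0,n})`
are the `r`-valued algebroid maps `ℂ → M_{0,n}`. We show for `r ≥ 2`:

* **(A)** if `n ≥ 5 r ^ 2`, then `V = Sym^r (M_{0,n})` satisfies (i) and (ii);
* **(B)** if `4 ≤ n ≤ 4 r - 2`, then `V = Sym^r (M_{0,n})` satisfies neither (i) nor (ii).

So the two conditions are equivalent for these varieties, apart from the gap between `4 r - 2` and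
`5 r ^ 2`. This is also in accordance with the analogy between the two sides: the arithmetic and
the analytic examples in (B) are specialisations `u = 2 ^ j`, `u = e ^ z` of the same
`𝔾_m ⊂ Sym^r (M_{0,4r-2})`.

Proof of (A). On both sides one has a large family of points `y = {y_1, …, y_r}` of
`Sym^r (M_{0,n})` (an infinite set of integral points; a curve `f(z)`, `z ∈ ℂ`, where the large
sets of points are the uncountable sets of `z`), and for each unit `g` of `M_{0,n}` the norm
`∏_t g (y_t)` is an `S`-unit, respectively an entire function without zeros. By the subspace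
theorem for unit equations, respectively Borel's theorem, each polynomial relation between the
norms which holds on a large set implies that the quotient of two of its monomials is constant on a
large subset (`UnitRel`). A specialisation argument yields a field with elements `x_{t,i}` which
satisfy all relations that hold on a large set of points `y_{t,i}`, and two discrete valuations
`V`, `V'` of this field with opposite values at all norms, not all zero (`genericA`). So the
vectors of the values `V (x_{t,i} - x_{t,j})`, `V' (x_{t,i} - x_{t,j})`, `1 ≤ t ≤ r`, are `2 r`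
vectors of the tropical variety of `M_{0,n}` with sum zero, that is, `2 r` trees with `n - 1`
leaves, the distances of which have a constant sum, and it was shown in
`MP_71c16a_nt.BoundedDegreeModuli` that such trees are trivial for `n ≥ 5 r ^ 2` (`trop_quad`).

Proof of (B). Let `N = r - 1` and let `x_1, …, x_r` be the roots of
`X ^ N (X - u) = X + u`. The `4 N + 2` points `∞`, `0`, `ζ ^ i`, `ω x_t`, `ω / x_t`
(`ζ ^ (2 N) = 1`, `ω ^ N = 1`) are distinct, and their differences are units if `u` and `2 N` are,
as `x ^ N - 1 = 2 u / (x - u)` and `x ^ N + 1 = 2 x / (x - u)`.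
-/

set_option autoImplicit false

namespace Pool.Agent.Results.MP_e97a4d_nt.SymmetricPowers

open MvPolynomial

variable {N r : ℕ}

/-- `f : ℂ → Sym^r (𝔸^N)`, `z ↦ {f z 0, …, f z (r - 1)}` is holomorphic: the coordinate ring of
`Sym^r (𝔸^N)` is spanned, as an algebra, by the functions `{y_1, …, y_r} ↦ ∑ t, P (y_t)`, where
`P` is a polynomial. (The functions `f · t` need not be continuous.) -/
def IsHolomorphic (f : ℂ → Fin r → Fin N → ℂ) : Prop :=
  ∀ P : MvPolynomial (Fin N) ℂ, Differentiable ℂ fun z => ∑ t, eval (f z t) P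

/-- Condition (i) for `Sym^r (X)`, `X ⊆ 𝔸^N(ℂ)`, with `V' = ∅`: every holomorphic map from `ℂ` to
`Sym^r (X)` is constant. -/
def EntireCurvesConstant (r : ℕ) (X : Set (Fin N → ℂ)) : Prop :=
  ∀ f : ℂ → Fin r → Fin N → ℂ, IsHolomorphic f → (∀ z t, f z t ∈ X) →
    ∀ z w, ∃ s : Equiv.Perm (Fin r), ∀ t, f z t = f w (s t)

/-- `a` is integral over the ring of `S`-integers: it becomes an algebraic integer when it is
multiplied by a power of the product of the primes in `S`. -/
def IsSIntegral (S : Finset ℕ) (a : ℂ) : Prop :=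
  ∃ m : ℕ, IsIntegral ℤ ((∏ p ∈ S, (p : ℂ)) ^ m * a)

/-- `{y 0, …, y (r - 1)}` is an `O_{L,S}`-valued point of `Sym^r (U)`, where `U` is the open
subscheme of `𝔸^N` over `ℤ` where the polynomials in `G` are invertible: it is defined over
`L ⊆ ℂ`, that is, the functions `∑ t, P (y_t)` have values in `L`, and all its coordinates and all
the inverses of the `g (y_t)`, `g ∈ G`, are integral over `O_{L,S}`. Here `S` is a set of prime
numbers, and `O_{L,S} = O_L[1/p : p ∈ S]`. -/
structure IsIntegralPoint {L : Type} [Field L] (τ : L →+* ℂ) (S : Finset ℕ)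
    (G : Set (MvPolynomial (Fin N) ℤ)) (y : Fin r → Fin N → ℂ) : Prop where
  rational : ∀ P : MvPolynomial (Fin N) ℤ, ∃ a : L, τ a = ∑ t, aeval (y t) P
  integral : ∀ t i, IsSIntegral S (y t i)
  integral_inv : ∀ t, ∀ g ∈ G, IsSIntegral S (aeval (y t) g)⁻¹

/-- Condition (ii) for `Sym^r (X)`, with `V' = ∅`, `X` closed in the open subscheme of `𝔸^N` where
the polynomials in `G` are invertible: for all number fields `L ⊆ ℂ` and all finite sets `S` of
primes (the places of `L` above finitely many primes; each finite set of places is contained in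
such a set) there are only finitely many `O_{L,S}`-valued points of `Sym^r (X)`. -/
def IntegralPointsFinite (r : ℕ) (X : Set (Fin N → ℂ)) (G : Set (MvPolynomial (Fin N) ℤ)) : Prop :=
  ∀ (L : Type) [Field L] [NumberField L] (τ : L →+* ℂ) (S : Finset ℕ), (∀ p ∈ S, p.Prime) →
    {y : Fin r → Fin N → ℂ | (∀ t, y t ∈ X) ∧ IsIntegralPoint τ S G y}.Finite

/-- `M_{0,m+3}`: the points are `∞`, `x 0 = 0`, `x 1 = 1`, `x 2`, …, `x (m + 1)`. -/
def M0 (m : ℕ) : Set (Fin (m + 2) → ℂ) := {x | x 0 = 0 ∧ x 1 = 1 ∧ Function.Injective x}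

/-- The functions which are invertible on `M_{0,m+3}`: the differences of the coordinates. -/
def differences (m : ℕ) : Set (MvPolynomial (Fin (m + 2)) ℤ) := {g | ∃ a b, a ≠ b ∧ g = X a - X b}

theorem result :
    -- (A) for `n = m + 3 ≥ 5 r ^ 2` both conditions hold for `Sym^r (M_{0,n})`
    (∀ r m : ℕ, 2 ≤ r → 5 * r ^ 2 ≤ m + 3 →
      EntireCurvesConstant r (M0 m) ∧ IntegralPointsFinite r (M0 m) (differences m)) ∧
    -- (B) for `4 ≤ n = m + 3 ≤ 4 r - 2` both conditions fail for `Sym^r (M_{0,n})`
    (∀ r m : ℕ, 2 ≤ r → 4 ≤ m + 3 → m + 3 ≤ 4 * r - 2 →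
      ¬ EntireCurvesConstant r (M0 m) ∧ ¬ IntegralPointsFinite r (M0 m) (differences m)) := by
  refine ⟨?_, ?_⟩
  · intro r m hr hm
    have hbq : Pool.Agent.N302.MB.bq (2 * r) < m + 2 := by
      have h3 : 2 ^ 2 ≤ r ^ 2 := Nat.pow_le_pow_left hr 2
      have h4 : (2 * r) ^ 2 = 4 * r ^ 2 := by ring
      unfold Pool.Agent.N302.MB.bq
      rw [h4]
      omega
    refine ⟨fun f hf hX => ?_, fun L _ _ τ S hS => ?_⟩
    · exact Pool.Agent.N302.SP.ent_M r m (by omega) hbq f hf (fun z t => (hX z t).1)
        (fun z t => (hX z t).2.1) (fun z t => (hX z t).2.2)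
    · refine (Pool.Agent.N302.SP.ar_M r m (by omega) hbq L τ S hS).subset ?_
      rintro y ⟨hy, hi⟩
      refine ⟨fun t => (hy t).1, fun t => (hy t).2.1, fun t => (hy t).2.2, hi.rational,
        hi.integral, fun t a b hab => ?_⟩
      have h1 := hi.integral_inv t (X a - X b) ⟨a, b, hab, rfl⟩
      rwa [map_sub, aeval_X, aeval_X] at h1
  · intro r m hr h4 hm
    obtain ⟨N, rfl⟩ : ∃ N, r = N + 1 := ⟨r - 1, by omega⟩
    constructor
    · intro h
      obtain ⟨f, hf, h0, h1, hn, hne⟩ := Pool.Agent.N302.SP.neg_ent (N := N) (M := m) (by omega)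
        (by omega) (by omega)
      exact hne (h f hf (fun z t => ⟨h0 z t, h1 z t, hn z t⟩) 0 1)
    · intro h
      obtain ⟨K, iF, iN, τ, S, hS, y, h0, h1, hn, hr, hi, hd, hne⟩ :=
        Pool.Agent.N302.SP.neg_ar (N := N) (M := m) (by omega) (by omega) (by omega)
      refine Set.infinite_of_injective_forall_mem (f := y) ?_ ?_ (h K τ S hS)
      · intro i j hij
        by_contra hne'
        exact hne i j hne' ⟨1, fun t => by rw [hij]; rfl⟩
      · intro j
        refine ⟨fun t => ⟨h0 j t, h1 j t, hn j t⟩, hr j, hi j, ?_⟩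
        rintro t g ⟨a, b, hab, rfl⟩
        rw [map_sub, aeval_X, aeval_X]
        exact hd j t a b hab

end Pool.Agent.Results.MP_e97a4d_nt.SymmetricPowers
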